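import Pool.Agent.Helper99.DF.St

set_option autoImplicit false

namespace Pool.Agent.Helper79.DF

open Pool.Agent.Helper99.DF

theorem hAN (_h1 : StGR) (h2 : StA2) (h3 : StA3) (h4 : StA4) (h5 : StA5) (h6 : StA6) : StAN := by
  classical
  intro S b hper
  obtain ⟨al, G, hG, hb⟩ := h2 S b hper
  have hc := h3 S b al G hper hG hb
  have hmono := h4 S b al G hper hG hb hc
  obtain ⟨F, hF⟩ := h5 S b al G hper hG hb hc hmono
  -- the minimum of the positive rates
  have hmin : ∃ c0 : ℝ, 0 < c0 ∧ ∀ k ∈ act S, 0 < cc al k → c0 ≤ cc al k := by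
    rcases ((act S).filter (fun k => 0 < cc al k)).eq_empty_or_nonempty with he | hne
    · refine ⟨1, one_pos, fun k hk hk0 => ?_⟩
      have : k ∈ (act S).filter (fun k => 0 < cc al k) := Finset.mem_filter.2 ⟨hk, hk0⟩
      rw [he] at this
      exact absurd this (Finset.notMem_empty k)
    · obtain ⟨k0, hk0, hle⟩ := Finset.exists_min_image _ (cc al) hne
      exact ⟨cc al k0, (Finset.mem_filter.1 hk0).2,
        fun k hk hk' => hle k (Finset.mem_filter.2 ⟨hk, hk'⟩)⟩
  obtain ⟨c0, hc0, hc0'⟩ := hmin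
  obtain ⟨C, hC⟩ := h6 S b al G F c0 hper hG hb hc hc0 hc0' hF
  have hactS : ∀ k ∈ act S, k ∈ S := fun k hk => (Finset.mem_filter.1 hk).1
  have hYc : ∀ k ∈ act S \ (act S).filter (fun k => 0 < cc al k), k ∈ act S ∧ cc al k = 0 := by
    intro k hk
    rw [Finset.mem_sdiff, Finset.mem_filter] at hk
    refine ⟨hk.1, le_antisymm ?_ (hc k hk.1)⟩
    by_contra h
    push Not at h
    exact hk.2 ⟨hk.1, h⟩
  refine ⟨al, F, (act S).filter (fun k => 0 < cc al k), c0, C, ?_⟩
  refine ⟨hper, hc0, Finset.filter_subset _ _, ?_, fun k hk => (hYc k hk).2, fun k hk => (hF k hk).1,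
    ?_, ?_, hC⟩
  · intro k hk
    exact hc0' k (Finset.mem_filter.1 hk).1 (Finset.mem_filter.1 hk).2
  · intro k hk hk'
    refine (hF k hk).2.2.1 ?_
    by_contra h
    push Not at h
    apply hk'
    rw [Finset.mem_sdiff, Finset.mem_filter]
    exact ⟨h.1, fun h' => absurd h'.2 (not_lt.2 h.2)⟩
  · intro k hk
    have := hYc k hk
    exact (hF k (hactS k this.1)).2.2.2 this.1 this.2

end Pool.Agent.Helper79.DF
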