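import Pool.Agent.Helper99.DF.St

set_option autoImplicit false

namespace Pool.Agent.Helper79.DF

open Pool.Agent.Helper99.DF

theorem hST (h1 : StSI) : StST := by
  intro l N s Dq Dg Zs ents qs h0 hex hI hP t
  induction t using Nat.strong_induction_on with
  | _ t ih =>
    intro en hen
    by_cases hts : t ≤ s
    · have := hP en hen t (List.mem_range.2 (by omega))
      rw [sq_TL_iter] at this
      exact this
    · obtain ⟨t', rfl⟩ : ∃ t', t = (s + 1) + t' := ⟨t - (s + 1), by omega⟩
      rw [Function.iterate_add_apply]
      obtain ⟨a, ha, hae⟩ := List.mem_iff_getElem.1 hen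
      have hv0 : ∀ u, (T^[u] (sq l)) 0 = 0 := by
        intro u
        induction u with
        | zero => exact h0
        | succ u ihu => rw [T_succ, Nat.zero_sub, ihu]; ring
      have hout : ∀ k, l.length ≤ k → (T^[t'] (sq l)) k = 0 := by
        intro k hk
        rw [← sq_TL_iter]
        exact sq_ge _ _ (by rw [length_TL_iter]; exact hk)
      have hid := h1 l.length N s Dq Dg Zs ents qs hex hI (T^[t'] (sq l)) (hv0 t') hout a ha
      unfold idn at hid
      have hga : ents.getD a (0, [], []) = en := by
        rw [List.getD_eq_getElem _ _ ha]; exact hae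
      rw [hga] at hid
      rw [hid]
      refine List.sum_eq_zero ?_
      intro x hx
      obtain ⟨j, hj, rfl⟩ := List.mem_map.1 hx
      refine List.sum_eq_zero ?_
      intro y hy
      obtain ⟨b, hb, rfl⟩ := List.mem_map.1 hy
      have hj' := List.mem_range.1 hj
      have hb' := List.mem_range.1 hb
      have hmem : ents.getD b (0, [], []) ∈ ents := by
        rw [List.getD_eq_getElem _ _ hb']
        exact List.getElem_mem hb'
      have := ih (j + t') (by omega) _ hmem
      rw [Function.iterate_add_apply] at this
      rw [this, mul_zero]

end Pool.Agent.Helper79.DF
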